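import Mathlib
import Pool.Agent.Omino.Final

set_option autoImplicit false

namespace Pool.Agent.Results.MP_60dc17_co.NoEquitransitive32

open Pool.Agent.Omino

/-- There is no equitransitive tiling of the plane by `32`-ominoes in which every shape of
`32`-omino occurs.  (The definitions are in `Pool.Agent.Omino.Defs`.) -/
theorem result :
    ¬ ∃ 𝒯 : Set (Set ℂ),
      IsTiling 𝒯 ∧ ByOminoes 32 𝒯 ∧ Equitransitive 𝒯 ∧ AllShapesOccur 32 𝒯 := by
  rintro ⟨𝒯, hT, hO, _, hA⟩
  obtain ⟨T, hTm, hc⟩ := hA _ isOmino_H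
  exact special_not_in_tiling 𝒯 hT hO T hTm hc

end Pool.Agent.Results.MP_60dc17_co.NoEquitransitive32
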